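import Pool.Agent.N375.RF.All

set_option autoImplicit false

/-!
# Almost all members of a class closed under adding and deleting end vertices are reconstructible

`T(G)` is the set of nonempty cliques of `G` ordered by inclusion.

**(A) Attaching trees to an arbitrary graph.** Let `K` be a graph of minimum degree at least two on
a set `C` of vertices, which is contained in a set `V` of `n` vertices. Consider the graphs on `V`
obtained from `K` by attaching rooted trees to the vertices in `C` (for connected `K` these are the
connected graphs on `V` with the 2-core `K`). If both `C` and `V \ C` have at least `α n` vertices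
and `n` is large, depending on `α` only, then for all but a proportion `n^(-c)` of these graphs `G`,
`c = c(α) > 0`, `T(G)` is reconstructible from its deck of maximal filter deleted subsets, and
moreover `T(G)` is determined by the number of the edges of `G` and two of the cards.

**(B) Classes of graphs.** Let `P` be a class of finite graphs which is closed under isomorphism and
such that, for every graph `G` with an end vertex (vertex of degree one) `u`, `G` belongs to `P` if
and only if `G - u` belongs to `P`. Suppose that the number `P_n` of members on `n` labelled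
vertices satisfies `(P_n / n!)^(1/n) → γ` with `e < γ < ∞`. Then for all but a proportion `n^(-c)`
of the members `G` of `P` on `n` vertices, `T(G)` is reconstructible, and if `G` is connected, `T(G)`
is determined by the number of the edges of `G` and two of the cards.

Examples of such classes: planar graphs, graphs embeddable in a fixed surface, graphs of tree-width
at most `k` (`k ≥ 2`), graphs without a `K_t` minor (`t ≥ 4`), cactus graphs.

The proof. A graph as in (A) is given by a rooted forest, i.e. by its parent function. If a leaf `u`
is in a tree of the forest with `t` vertices, which without `u` is not isomorphic to any tree of the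
forest, and a leaf `z` is in a tree whose size is not `t - 1`, `t`, `t + 1`, then `G` is determined
by `G - u` and `G - z` and the number of edges. That almost all forests have such leaves is shown by
moving leaves and by replacing one tree by all trees on the same vertices; `t` is of order `log n`.
-/

namespace Pool.Agent.Results.MP_552896_co.PendantTreeClasses

/-- The card of `T(G)` at `v` and the card of `T(H)` at `w` are isomorphic: the nonempty cliques
of `G` avoiding `v` and the nonempty cliques of `H` avoiding `w`, both ordered by inclusion, are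
isomorphic ordered sets. -/
def SameCard {V W : Type} (G : SimpleGraph V) (v : V) (H : SimpleGraph W) (w : W) : Prop :=
  Nonempty ({s : Finset V // s.Nonempty ∧ G.IsClique (s : Set V) ∧ v ∉ s} ≃o
    {t : Finset W // t.Nonempty ∧ H.IsClique (t : Set W) ∧ w ∉ t})

/-- `T(G)` and `T(H)` are isomorphic ordered sets. -/
def SameLattice {V W : Type} (G : SimpleGraph V) (H : SimpleGraph W) : Prop :=
  Nonempty ({s : Finset V // s.Nonempty ∧ G.IsClique (s : Set V)} ≃o
    {t : Finset W // t.Nonempty ∧ H.IsClique (t : Set W)})

/-- `T(G)` is reconstructible from its deck of maximal filter deleted subsets: every truncated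
clique lattice `T(H)` of a finite graph `H` with the same deck is isomorphic to `T(G)`. -/
def Reconstructible {V : Type} (G : SimpleGraph V) : Prop :=
  ∀ (W : Type) [Fintype W] (H : SimpleGraph W),
    (∃ f : V ≃ W, ∀ v : V, SameCard G v H (f v)) → SameLattice G H

/-- `T(G)` is determined by two of its cards and the number of edges of `G`: for two different
vertices `a`, `b` of `G`, every `T(H)`, `H` a finite graph with the same number of edges as `G`,
which has at two different vertices cards isomorphic to the cards of `T(G)` at `a` and at `b`, is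
isomorphic to `T(G)`. -/
def DeterminedByTwoCards {V : Type} (G : SimpleGraph V) : Prop :=
  ∃ a b : V, a ≠ b ∧ ∀ (W : Type) [Fintype W] (H : SimpleGraph W) (a' b' : W), a' ≠ b' →
    H.edgeSet.ncard = G.edgeSet.ncard → SameCard G a H a' → SameCard G b H b' → SameLattice G H

/-- `G` is obtained from the graph `K` on the set `C` by attaching rooted trees to the vertices in
`C`: for some parent function `p`, which fixes the vertices in `C` and leads every vertex to `C`
after some steps, the edges of `G` are the edges of `K` and the pairs `x`, `p x` with `p x ≠ x`. -/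
def TreesAttached {V : Type} (K : SimpleGraph V) (C : Finset V) (G : SimpleGraph V) : Prop :=
  ∃ p : V → V, (∀ x ∈ C, p x = x) ∧ (∀ x, ∃ k : ℕ, p^[k] x ∈ C) ∧
    ∀ x y, G.Adj x y ↔ K.Adj x y ∨ (x ≠ y ∧ (p x = y ∨ p y = x))

/-- A class of finite graphs, given by its members on the vertex sets `Fin n`, which is closed under
isomorphism and such that for every graph `G` with a vertex `u` of degree one, `G` belongs to the
class if and only if `G - u` does. -/
def ClosedUnderEndVertices (P : (n : ℕ) → Set (SimpleGraph (Fin n))) : Prop :=
  (∀ (n : ℕ) (e : Fin n ≃ Fin n) (G : SimpleGraph (Fin n)), G ∈ P n → G.comap e ∈ P n) ∧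
  ∀ (n : ℕ) (G : SimpleGraph (Fin (n + 1))) (u : Fin (n + 1)), (∃! y, G.Adj u y) →
    (G ∈ P (n + 1) ↔ G.comap u.succAbove ∈ P n)

theorem result :
    (∀ α : ℝ, 0 < α → ∃ c : ℝ, 0 < c ∧ ∃ n₀ : ℕ,
      ∀ (V : Type) [Fintype V] (K : SimpleGraph V) (C : Finset V), n₀ ≤ Fintype.card V →
        (∀ x y, K.Adj x y → x ∈ C ∧ y ∈ C) →
        (∀ x ∈ C, ∃ y z, y ≠ z ∧ K.Adj x y ∧ K.Adj x z) →
        α * (Fintype.card V : ℝ) ≤ (C.card : ℝ) →
        α * (Fintype.card V : ℝ) ≤ (Fintype.card V : ℝ) - (C.card : ℝ) →
        (({G : SimpleGraph V | TreesAttached K C G ∧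
          ¬ (Reconstructible G ∧ DeterminedByTwoCards G)}.ncard : ℕ) : ℝ) ≤
          (Fintype.card V : ℝ) ^ (-c) *
            (({G : SimpleGraph V | TreesAttached K C G}.ncard : ℕ) : ℝ)) ∧
    (∀ P : (n : ℕ) → Set (SimpleGraph (Fin n)), ClosedUnderEndVertices P →
      ∀ γ : ℝ, Real.exp 1 < γ →
      Filter.Tendsto (fun n : ℕ => (((P n).ncard : ℝ) / (n.factorial : ℝ)) ^ (1 / (n : ℝ)))
        Filter.atTop (nhds γ) →
      ∃ c : ℝ, 0 < c ∧ ∃ n₀ : ℕ, ∀ n : ℕ, n₀ ≤ n →
        (({G : SimpleGraph (Fin n) | G ∈ P n ∧
          ¬ (Reconstructible G ∧ (G.Connected → DeterminedByTwoCards G))}.ncard : ℕ) : ℝ) ≤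
          (n : ℝ) ^ (-c) * ((P n).ncard : ℝ)) := by
  constructor
  · intro α hα
    obtain ⟨c, hc, n₀, h⟩ := Pool.Agent.N375.RF.fixed α hα
    refine ⟨c, hc, n₀, ?_⟩
    intro V _ K C hn hK1 hK2 hC hC'
    have e : ∀ G : SimpleGraph V, TreesAttached K C G ↔
        ∃ p, Pool.Agent.N375.RF.IsRF C p ∧ G = Pool.Agent.N375.RF.GG K p := by
      intro G
      constructor
      · rintro ⟨p, h1, h2, h3⟩
        exact ⟨p, ⟨h1, h2⟩, by ext x y; exact h3 x y⟩
      · rintro ⟨p, ⟨h1, h2⟩, rfl⟩
        exact ⟨p, h1, h2, fun x y => Iff.rfl⟩
    have h1 := h V K C hn ⟨hK1, hK2⟩ hC hC'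
    simp only [e]
    exact h1
  · intro P hP γ hγ hG
    exact Pool.Agent.N375.RF.classes Pool.Agent.N375.RF.classStm P hP γ hγ hG

end Pool.Agent.Results.MP_552896_co.PendantTreeClasses
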